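import Pool.Agent.H588R2.DksNum

/-!
# No `o(k)`-FPT-approximation for Densest `k`-Subgraph under (randomized) Gap-ETH

The machine model is the word RAM with arrays of `Pool.Agent.H588R2.BankModel`.
-/

namespace Pool.Agent.Results.MP_2cea29_lc.NoSublinearFPT

open Pool.Agent.H588R2.Bank Filter Topology

/-! ## Densest `k`-Subgraph -/

open Classical in
/-- Number of edges of the subgraph of `G` induced by `S` (pairs `u < v` of adjacent vertices
of `S`). -/
noncomputable def edgesIn {N : ℕ} (G : SimpleGraph (Fin N)) (S : Finset (Fin N)) : ℕ :=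
  ((S ×ˢ S).filter (fun q => q.1 < q.2 ∧ G.Adj q.1 q.2)).card

open Classical in
/-- Start state of the machine on the input `(G, k)`, where `G` has the vertices
`0, …, N - 1`: all registers are zero, array `0` contains `N`, `k` and then the adjacency
matrix row by row (cell `2 + u * N + v` is `1` if `u` and `v` are adjacent, else `0`), followed
by zeros; the other arrays contain zeros. -/
noncomputable def dksInput {N : ℕ} (G : SimpleGraph (Fin N)) (k : ℕ) : St where
  reg := fun _ => 0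
  mem := fun b i =>
    if b = 0 then
      (if i = 0 then N else if i = 1 then k else
        if h : (i - 2) / N < N ∧ (i - 2) % N < N then
          (if G.Adj ⟨(i - 2) / N, h.1⟩ ⟨(i - 2) % N, h.2⟩ then 1 else 0)
        else 0)
    else 0

/-- Densest `k`-Subgraph has an `α`-FPT-approximation algorithm: there are a program `P`, a
function `f` and an exponent `c` such that for every graph `G` on `N` vertices and every
`1 ≤ k ≤ N`, and for every word length `w` with `f(k) (N+2)^c ≤ 2^w`, the program halts within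
`f(k) (N+2)^c` steps, and then the cells `0, …, k - 1` of array `0` contain `k` distinct
vertices which span at least `OPT(G, k) / α(k)` edges. -/
def FPTApprox (α : ℕ → ℝ) : Prop :=
  ∃ (P : List Instr) (f : ℕ → ℕ) (c : ℕ), ∀ (N : ℕ) (G : SimpleGraph (Fin N)) (k : ℕ),
    1 ≤ k → k ≤ N → ∀ w : ℕ, f k * (N + 2) ^ c ≤ 2 ^ w →
      ∃ t ≤ f k * (N + 2) ^ c, Halted P (run w P (dksInput G k) t) ∧
        ∃ s : Fin k → Fin N, Function.Injective s ∧
          (∀ i : Fin k, (run w P (dksInput G k) t).st.mem 0 i = s i) ∧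
          ∀ T : Finset (Fin N), T.card = k →
            (edgesIn G T : ℝ) ≤ α k * edgesIn G (Finset.univ.image s)

/-! ## Gap-ETH -/

/-- A 3-CNF formula with `n` variables and `m` clauses. Clause `i` is the disjunction of the
literals `φ i 0`, `φ i 1`, `φ i 2`; the literal `(x, true)` is the variable `x`, the literal
`(x, false)` its negation. Repeated literals are allowed. -/
abbrev Formula (n m : ℕ) := Fin m → Fin 3 → Fin n × Bool

/-- The assignment `σ` violates the clause `c`. -/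
def Violates {n : ℕ} (σ : Fin n → Bool) (c : Fin 3 → Fin n × Bool) : Prop :=
  ∀ j, σ (c j).1 ≠ (c j).2

/-- The formula is satisfiable. -/
def Sat {n m : ℕ} (φ : Formula n m) : Prop := ∃ σ : Fin n → Bool, ∀ i, ¬ Violates σ (φ i)

open Classical in
/-- Every assignment violates at least `ε m` clauses. -/
def Far {n m : ℕ} (ε : ℝ) (φ : Formula n m) : Prop :=
  ∀ σ : Fin n → Bool, ε * m ≤ ((Finset.univ.filter (fun i => Violates σ (φ i))).card : ℝ)

/-- Start state of the machine on the formula `φ` with the random bits `ρ`: all registers are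
zero; array `0` contains `n`, `m` and then for every clause `i` and `j = 0, 1, 2` the
index of the variable (cell `2 + 6 i + 2 j`) and the sign (cell `3 + 6 i + 2 j`) of the literal
`φ i j`; array `1` contains the random bits; all other cells are zero. -/
def satInput {n m R : ℕ} (φ : Formula n m) (ρ : Fin R → Bool) : St where
  reg := fun _ => 0
  mem := fun b i =>
    if b = 0 then
      (if i = 0 then n else if i = 1 then m else
        if h : (i - 2) / 6 < m then
          (let l := φ ⟨(i - 2) / 6, h⟩ ⟨(i - 2) / 2 % 3, Nat.mod_lt _ (by norm_num)⟩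
          if (i - 2) % 2 = 0 then l.1.1 else l.2.toNat)
        else 0)
    else if b = 1 then (if h : i < R then (ρ ⟨i, h⟩).toNat else 0)
    else 0

open Classical in
/-- Probability of an event over `R` uniformly random bits. -/
noncomputable def prob {R : ℕ} (E : (Fin R → Bool) → Prop) : ℝ :=
  ((Finset.univ.filter (fun ρ => E ρ)).card : ℝ) / 2 ^ R

/-- There is a randomized algorithm with running time `O((n + m)^d 2^{δ n})` that distinguishes
satisfiable 3-CNF formulas with `n` variables and `m ≥ 1` clauses from those in which every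
assignment violates at least `ε m` clauses, with success probability at least `2/3` (output
`1`, resp. `0`, in register `0`). The algorithm is a word RAM program; it works for all
word lengths of at least `c (n + log m + 1)` bits, and reads at most as many random bits as
its time bound allows. -/
def GapAlgorithm (ε δ : ℝ) : Prop :=
  ∃ (Q : List Instr) (c C d : ℕ), ∀ (n m : ℕ) (φ : Formula n m), 0 < m →
    ∀ w : ℕ, c * (n + Nat.log 2 m + 1) ≤ w →
      let T : ℝ := C * ((n : ℝ) + m) ^ d * (2 : ℝ) ^ (δ * n)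
      (Sat φ → 2 / 3 ≤ prob (fun ρ : Fin ⌊T⌋₊ → Bool => HaltsWithin w Q (satInput φ ρ) T 1)) ∧
      (Far ε φ → 2 / 3 ≤ prob (fun ρ : Fin ⌊T⌋₊ → Bool => HaltsWithin w Q (satInput φ ρ) T 0))

/-- Gap-ETH (for randomized algorithms): for some `ε > 0` and `δ > 0` no randomized algorithm
distinguishes satisfiable 3-CNF formulas from those in which every assignment violates at least
an `ε` fraction of the clauses in time `2^{δ n}` (times a polynomial in `n + m`). -/
def RandomizedGapETH : Prop := ∃ ε : ℝ, 0 < ε ∧ ∃ δ : ℝ, 0 < δ ∧ ¬ GapAlgorithm ε δ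

/-! ## Proofs -/

open Finset Pool.Agent.H588R2.Dks Pool.Agent.H588R2.DksP

theorem violates_iff {n : ℕ} (A : Fin n → ℕ) (hA : ∀ x, A x ≤ 1) (c : Fin 3 → Fin n × Bool) :
    Violates (fun x => decide (A x = 1)) c ↔ ∀ j, FalL A (c j) := by
  unfold Violates FalL
  refine forall_congr' (fun j => ?_)
  have h1 := hA (c j).1
  have h2 : A (c j).1 = 0 ∨ A (c j).1 = 1 := by omega
  rcases h2 with h2 | h2 <;> cases hb : (c j).2 <;> simp [h2]

open Classical in
theorem far_fal {n m : ℕ} {ε : ℝ} {φ : Formula n m} (h : Far ε φ) (A : Fin n → ℕ)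
    (hA : ∀ x, A x ≤ 1) (C : Finset (Fin m)) (hC : ∀ i, (∀ j, FalL A (φ i j)) → i ∈ C) :
    ε * m ≤ C.card := by
  refine (h (fun x => decide (A x = 1))).trans ?_
  have : (univ.filter (fun i => Violates (fun x => decide (A x = 1)) (φ i))) ⊆ C := by
    intro i hi
    rw [mem_filter] at hi
    exact hC i ((violates_iff A hA (φ i)).1 hi.2)
  exact_mod_cast Finset.card_le_card this

theorem Far.mono {n m : ℕ} {ε ε' : ℝ} {φ : Formula n m} (h : Far ε φ) (hε : ε' ≤ ε) :
    Far ε' φ := fun σ => le_trans (mul_le_mul_of_nonneg_right hε (Nat.cast_nonneg _)) (h σ)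

/-- The graph of a family. -/
def graphOf {n N J : ℕ} (val : Fin n → (Fin (J + 1) → Bool) → ℕ) (Valid : (Fin n → ℕ) → Prop)
    (F : Fin N → Fin n → Fin (J + 1) → Bool) : SimpleGraph (Fin N) where
  Adj := adjF val Valid F
  symm := ⟨fun _ _ h => h.symm⟩
  loopless := ⟨fun _ h => h.1 rfl⟩

open Classical in
theorem e2_eq {n N J : ℕ} (val : Fin n → (Fin (J + 1) → Bool) → ℕ) (Valid : (Fin n → ℕ) → Prop)
    (F : Fin N → Fin n → Fin (J + 1) → Bool) (S : Finset (Fin N)) :
    e2 val Valid F S = 2 * edgesIn (graphOf val Valid F) S := by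
  unfold e2 edgesIn
  set G := graphOf val Valid F with hG
  have h1 : (S ×ˢ S).filter (fun q => adjF val Valid F q.1 q.2)
      = (S ×ˢ S).filter (fun q => q.1 < q.2 ∧ G.Adj q.1 q.2) ∪
        (S ×ˢ S).filter (fun q => q.2 < q.1 ∧ G.Adj q.1 q.2) := by
    ext q
    simp only [mem_filter, mem_union, mem_product]
    constructor
    · rintro ⟨hq, ha⟩
      have hne : q.1 ≠ q.2 := ha.1
      rcases lt_or_gt_of_ne hne with h | h
      · exact Or.inl ⟨hq, h, ha⟩
      · exact Or.inr ⟨hq, h, ha⟩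
    · rintro (⟨hq, _, ha⟩ | ⟨hq, _, ha⟩)
      · exact ⟨hq, ha⟩
      · exact ⟨hq, ha⟩
  rw [h1, Finset.card_union_of_disjoint, two_mul]
  · congr 1
    apply Finset.card_bij (fun q _ => (q.2, q.1))
    · intro q hq
      simp only [mem_filter, mem_product] at hq ⊢
      exact ⟨⟨hq.1.2, hq.1.1⟩, hq.2.1, hq.2.2.symm⟩
    · rintro ⟨a, b⟩ _ ⟨a', b'⟩ _ h
      simp only [Prod.mk.injEq] at h
      exact Prod.ext h.2 h.1
    · intro q hq
      simp only [mem_filter, mem_product] at hq
      refine ⟨(q.2, q.1), ?_, rfl⟩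
      simp only [mem_filter, mem_product]
      exact ⟨⟨hq.1.2, hq.1.1⟩, hq.2.1, hq.2.2.symm⟩
  · rw [Finset.disjoint_left]
    intro q hq hq'
    rw [mem_filter] at hq hq'
    exact absurd hq.2.1 (lt_asymm hq'.2.1)

theorem satInput_lit {n m R : ℕ} (φ : Formula n m) (ρ : Fin R → Bool) (t : ℕ) (ht : t < 3 * m) :
    (satInput φ ρ).mem 0 (2 + 2 * t) = Vf φ t ∧ (satInput φ ρ).mem 0 (2 + 2 * t + 1) = Sf φ t := by
  have h1 : (2 + 2 * t - 2) / 6 = t / 3 := by omega
  have h2 : (2 + 2 * t - 2) / 2 % 3 = t % 3 := by omega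
  have h3 : (2 + 2 * t - 2) % 2 = 0 := by omega
  have h4 : (2 + 2 * t + 1 - 2) / 6 = t / 3 := by omega
  have h5 : (2 + 2 * t + 1 - 2) / 2 % 3 = t % 3 := by omega
  have h6 : (2 + 2 * t + 1 - 2) % 2 = 1 := by omega
  have hlt : t / 3 < m := by omega
  constructor
  · simp only [satInput, if_true]
    rw [if_neg (by omega), if_neg (by omega), dif_pos (by rw [h1]; exact hlt)]
    unfold Vf
    rw [dif_pos hlt]
    simp only [h1, h2, h3, if_true]
  · simp only [satInput, if_true]
    rw [if_neg (by omega), if_neg (by omega), dif_pos (by rw [h4]; exact hlt)]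
    unfold Sf
    rw [dif_pos hlt]
    simp only [h4, h5, h6]
    norm_num

theorem dksInput_eq {n m R : ℕ} (φ : Formula n m) (Δ n₀ J N k : ℕ) (ρ : Fin R → Bool) :
    inpSt n N k (okN n m (Vf φ) (Sf φ) (strN J n (fun i => (rbF ρ i).toNat)
        (hvN Δ n₀ n m (Vf φ)))) (strN J n (fun i => (rbF ρ i).toNat) (hvN Δ n₀ n m (Vf φ)))
      = dksInput (graphOf (valF (HeavyF φ Δ n₀) J) (ValidF φ) (famOf N n J ρ)) k := by
  unfold inpSt dksInput
  congr 1
  funext b i
  by_cases hb : b = 0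
  · simp only [hb, if_true]
    unfold inpN
    by_cases hi0 : i = 0
    · simp [hi0]
    by_cases hi1 : i = 1
    · simp [hi1]
    simp only [hi0, hi1, if_false]
    by_cases hN : i - 2 < N * N
    · have hNpos : 0 < N := by
        rcases Nat.eq_zero_or_pos N with h | h
        · subst h; simp at hN
        · exact h
      have hd : (i - 2) / N < N := (Nat.div_lt_iff_lt_mul hNpos).2 hN
      have hm : (i - 2) % N < N := Nat.mod_lt _ hNpos
      rw [if_pos hN, dif_pos ⟨hd, hm⟩]
      unfold adI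
      have key := adN_eq φ Δ n₀ J N ρ ⟨(i - 2) / N, hd⟩ ⟨(i - 2) % N, hm⟩
      have hle := adN_le n (okN n m (Vf φ) (Sf φ) (strN J n (fun i => (rbF ρ i).toNat)
        (hvN Δ n₀ n m (Vf φ)))) (strN J n (fun i => (rbF ρ i).toNat)
        (hvN Δ n₀ n m (Vf φ))) ((i - 2) / N) ((i - 2) % N)
      simp only at key
      by_cases ha : adjF (valF (HeavyF φ Δ n₀) J) (ValidF φ) (famOf N n J ρ)
          ⟨(i - 2) / N, hd⟩ ⟨(i - 2) % N, hm⟩
      · rw [key.2 ha, if_pos]
        exact ha
      · rw [if_neg]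
        · have h' := mt key.1 ha
          omega
        · exact ha
    · rw [if_neg hN, dif_neg]
      rintro ⟨h1, h2⟩
      apply hN
      have hNpos : 0 < N := by omega
      exact (Nat.div_lt_iff_lt_mul hNpos).1 h1
  · simp [hb]

/-- The sequence of vertices as a function on the natural numbers. -/
def seqOf {k N : ℕ} (s : Fin k → Fin N) (i : ℕ) : ℕ := if h : i < k then (s ⟨i, h⟩).1 else 0

open Classical in
theorem cntN_eq {n m R : ℕ} (φ : Formula n m) (Δ n₀ J N k : ℕ) (ρ : Fin R → Bool)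
    (s : Fin k → Fin N) (hs : Function.Injective s) :
    cntN k (adN n (okN n m (Vf φ) (Sf φ) (strN J n (fun i => (rbF ρ i).toNat)
        (hvN Δ n₀ n m (Vf φ)))) (strN J n (fun i => (rbF ρ i).toNat) (hvN Δ n₀ n m (Vf φ))))
      (seqOf s)
      = e2 (valF (HeavyF φ Δ n₀) J) (ValidF φ) (famOf N n J ρ) (univ.image s) := by
  unfold cntN e2
  rw [Finset.sum_range]
  have h1 : ∀ i : Fin k, seqOf s i.1 = (s i).1 := by
    intro i; unfold seqOf; rw [dif_pos i.2]
  set ad := adN n (okN n m (Vf φ) (Sf φ) (strN J n (fun i => (rbF ρ i).toNat)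
        (hvN Δ n₀ n m (Vf φ)))) (strN J n (fun i => (rbF ρ i).toNat) (hvN Δ n₀ n m (Vf φ)))
    with had
  set A := adjF (valF (HeavyF φ Δ n₀) J) (ValidF φ) (famOf N n J ρ) with hA
  have h2 : ∀ u v : Fin N, ad u.1 v.1 = if A u v then 1 else 0 := by
    intro u v
    have key := adN_eq φ Δ n₀ J N ρ u v
    rw [← had, ← hA] at key
    have hle : ad u.1 v.1 ≤ 1 := adN_le _ _ _ _ _
    by_cases ha : A u v
    · rw [if_pos ha]; exact key.2 ha
    · rw [if_neg ha]
      have h' := mt key.1 ha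
      omega
  have h3 : ∑ i : Fin k, ∑ j ∈ range k, ad (seqOf s i.1) (seqOf s j)
      = ∑ i : Fin k, ∑ j : Fin k, (if A (s i) (s j) then 1 else 0) := by
    apply Finset.sum_congr rfl
    intro i _
    rw [Finset.sum_range]
    apply Finset.sum_congr rfl
    intro j _
    rw [h1, h1, h2]
  rw [h3, Finset.card_filter, Finset.sum_product,
    Finset.sum_image (fun a _ b _ h => hs h)]
  apply Finset.sum_congr rfl
  intro i _
  rw [Finset.sum_image (fun a _ b _ h => hs h)]

/-- The run of the complete program on one random tape. -/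
theorem run_tape {α : ℕ → ℝ} {P : List Instr} {f : ℕ → ℕ} {c : ℕ}
    (hP : ∀ (N : ℕ) (G : SimpleGraph (Fin N)) (k : ℕ),
    1 ≤ k → k ≤ N → ∀ w : ℕ, f k * (N + 2) ^ c ≤ 2 ^ w →
      ∃ t ≤ f k * (N + 2) ^ c, Halted P (run w P (dksInput G k) t) ∧
        ∃ s : Fin k → Fin N, Function.Injective s ∧
          (∀ i : Fin k, (run w P (dksInput G k) t).st.mem 0 i = s i) ∧
          ∀ T : Finset (Fin N), T.card = k →
            (edgesIn G T : ℝ) ≤ α k * edgesIn G (Finset.univ.image s))
    {n m R k J Δ n₀ Th w : ℕ} (φ : Formula n m) (ρ : Fin R → Bool) (hk : 1 ≤ k) (hJ : 1 ≤ J)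
    (hfit : Fits w n m (gN k (2 ^ (J + 1)) (hvN Δ n₀ n m (Vf φ)) n * k) J k Δ n₀ Th)
    (hw : f k * (gN k (2 ^ (J + 1)) (hvN Δ n₀ n m (Vf φ)) n * k + 2) ^ c ≤ 2 ^ w) :
    let g := gN k (2 ^ (J + 1)) (hvN Δ n₀ n m (Vf φ)) n
    let N := g * k
    let F := famOf N n J ρ
    let val := valF (HeavyF φ Δ n₀) J
    ∃ s : Fin k → Fin N, Function.Injective s ∧
      (∀ T : Finset (Fin N), T.card = k →
        (e2 val (ValidF φ) F T : ℝ) ≤ α k * e2 val (ValidF φ) F (univ.image s)) ∧
      ∃ t ≤ tMain n m N J k g + (f k * (N + 2) ^ c + 1) + (k * (k * 7 + 8) + 10),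
        Halted (prog P k J Δ n₀ Th) (run w (prog P k J Δ n₀ Th) (satInput φ ρ) t) ∧
        (run w (prog P k J Δ n₀ Th) (satInput φ ρ) t).st.reg 0
          = if Th < e2 val (ValidF φ) F (univ.image s) then 1 else 0 := by
  intro g N F val
  have hgpos : 1 ≤ g := by
    have h := (gN_bounds φ Δ n₀ J k hJ hk).1
    by_contra hcon
    have : g = 0 := by omega
    change 3 * (k : ℝ) ≤ (g : ℝ) * _ at h
    rw [this] at h
    have hk' : (1 : ℝ) ≤ k := by exact_mod_cast hk
    simp at h
    linarith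
  have hkN : k ≤ N := Nat.le_mul_of_pos_left _ hgpos
  obtain ⟨tP, htP, hhalt, s, hs, hout, hopt⟩ := hP N (graphOf val (ValidF φ) F) k hk hkN w hw
  refine ⟨s, hs, ?_, ?_⟩
  · intro T hT
    have := hopt T hT
    rw [e2_eq, e2_eq]
    push_cast
    linarith
  · have hinp := dksInput_eq φ Δ n₀ J N k ρ
    have key := full_run (w := w) (n := n) (m := m) (k := k) (J := J) (Δ := Δ) (n₀ := n₀)
      (Th := Th) (tP := tP) (V := Vf φ) (Sg := Sf φ) (Rb := fun i => (rbF ρ i).toNat)
      (su := seqOf s) (P := P) (fun i => Bool.toNat_le _) (fun t ht => Vf_lt φ ht)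
      (fun t _ => Sf_le φ t) hfit (satInput φ ρ) (fun _ => rfl) rfl rfl
      (fun t ht => satInput_lit φ ρ t ht)
      (by
        funext i
        simp only [satInput, one_ne_zero, if_false, if_true, rbF]
        split_ifs <;> rfl)
      (by
        intro b hb i
        simp only [satInput]
        rw [if_neg (by omega), if_neg (by omega)])
    simp only at key
    obtain ⟨t, ht, h1, h2⟩ := key
      (by
        have : inpSt n N k (okN n m (Vf φ) (Sf φ) (strN J n (fun i => (rbF ρ i).toNat)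
          (hvN Δ n₀ n m (Vf φ)))) (strN J n (fun i => (rbF ρ i).toNat)
          (hvN Δ n₀ n m (Vf φ))) = dksInput (graphOf val (ValidF φ) F) k := hinp
        rw [show gN k (2 ^ (J + 1)) (hvN Δ n₀ n m (Vf φ)) n * k = N from rfl, this]
        exact hhalt)
      (by
        intro i hi
        have : inpSt n N k (okN n m (Vf φ) (Sf φ) (strN J n (fun i => (rbF ρ i).toNat)
          (hvN Δ n₀ n m (Vf φ)))) (strN J n (fun i => (rbF ρ i).toNat)
          (hvN Δ n₀ n m (Vf φ))) = dksInput (graphOf val (ValidF φ) F) k := hinp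
        rw [show gN k (2 ^ (J + 1)) (hvN Δ n₀ n m (Vf φ)) n * k = N from rfl, this]
        have h3 := hout ⟨i, hi⟩
        simp only at h3
        rw [h3]
        unfold seqOf
        rw [dif_pos hi])
      (by
        intro i hi
        unfold seqOf
        rw [dif_pos hi]
        exact (s ⟨i, hi⟩).2)
    refine ⟨t, ?_, h1, ?_⟩
    · refine ht.trans ?_
      show tMain n m N J k g + (tP + 1) + (k * (k * 7 + 8) + 10) ≤ _
      omega
    · rw [h2]
      have h4 := cntN_eq φ Δ n₀ J N k ρ s hs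
      rw [show cntN k (adN n (okN n m (Vf φ) (Sf φ) (strN J n (fun i => (rbF ρ i).toNat)
        (hvN Δ n₀ n m (Vf φ)))) (strN J n (fun i => (rbF ρ i).toNat) (hvN Δ n₀ n m (Vf φ))))
        (seqOf s) = _ from h4]

open Classical in
theorem prob_ge {R : ℕ} {E Bad : (Fin R → Bool) → Prop} (h : ∀ ρ, ¬ Bad ρ → E ρ)
    (hb : ((univ.filter (fun ρ => Bad ρ)).card : ℝ) / 2 ^ R ≤ 1 / 3) : 2 / 3 ≤ prob E := by
  unfold prob
  have h1 : (univ.filter (fun ρ : Fin R → Bool => ¬ Bad ρ)).card
      ≤ (univ.filter (fun ρ => E ρ)).card := by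
    apply Finset.card_le_card
    intro ρ hρ
    rw [mem_filter] at hρ ⊢
    exact ⟨mem_univ _, h ρ hρ.2⟩
  have h2 : (univ.filter (fun ρ => Bad ρ)).card + (univ.filter (fun ρ => ¬ Bad ρ)).card
      = 2 ^ R := by
    rw [Finset.card_filter_add_card_filter_not, card_univ, Fintype.card_fun,
      Fintype.card_bool, Fintype.card_fin]
  have h1' : ((univ.filter (fun ρ : Fin R → Bool => ¬ Bad ρ)).card : ℝ)
      ≤ (univ.filter (fun ρ => E ρ)).card := by exact_mod_cast h1
  have h2' : ((univ.filter (fun ρ => Bad ρ)).card : ℝ)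
      + (univ.filter (fun ρ => ¬ Bad ρ)).card = 2 ^ R := by exact_mod_cast h2
  have hpos : (0 : ℝ) < 2 ^ R := by positivity
  rw [div_le_iff₀ hpos] at hb
  rw [le_div_iff₀ hpos]
  linarith

theorem not_valid_of_total {n m : ℕ} {ε : ℝ} {φ : Formula n m} (hε : 0 < ε) (hm : 0 < m)
    (h : Far ε φ) (a : Fin n → ℕ) (ha : ∀ x, a x ≤ 1) : ¬ ValidF φ a := by
  classical
  intro hval
  have h1 := far_fal h a ha (univ.filter (fun i => ∀ j, FalL a (φ i j)))
    (fun i hi => mem_filter.2 ⟨mem_univ _, hi⟩)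
  have h2 : (univ.filter (fun i => ∀ j, FalL a (φ i j))) = ∅ := by
    apply Finset.filter_eq_empty_iff.2
    intro i _ hi
    exact hval i hi
  rw [h2] at h1
  have hm' : (0 : ℝ) < m := by exact_mod_cast hm
  have : 0 < ε * m := mul_pos hε hm'
  simp at h1
  linarith

theorem adj_of_agree {n m J N : ℕ} {φ : Formula n m} {hv : Fin n → Prop} {σ : Fin n → Bool}
    (hσ : ∀ i, ¬ Violates σ (φ i)) {F : Fin N → Fin n → Fin (J + 1) → Bool} {u v : Fin N}
    (huv : u ≠ v) (hu : Agree (valF hv J) (fun x => (σ x).toNat) (F u))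
    (hv' : Agree (valF hv J) (fun x => (σ x).toNat) (F v)) :
    adjF (valF hv J) (ValidF φ) F u v := by
  have hvalid : ∀ w : Fin N, Agree (valF hv J) (fun x => (σ x).toNat) (F w) →
      ValidF φ (fun x => valF hv J x (F w x)) := by
    intro w hw i hi
    apply hσ i
    intro j
    have h1 : valF hv J (φ i j).1 (F w (φ i j).1) + (φ i j).2.toNat = 1 := hi j
    rcases hw (φ i j).1 with h2 | h2
    · rw [h2] at h1
      cases h3 : σ (φ i j).1 <;> cases h4 : (φ i j).2 <;> simp [h3, h4] at h1 ⊢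
    · rw [h2] at h1
      omega
  refine ⟨huv, hvalid u hu, hvalid v hv', ?_⟩
  intro x
  have hb := Bool.toNat_le (σ x)
  rcases hu x with h1 | h1 <;> rcases hv' x with h2 | h2 <;> rw [h1, h2] <;> omega

open Classical in
theorem gapAlgorithm_of_FPTApprox {α : ℕ → ℝ}
    (hα : Tendsto (fun k : ℕ => α k / k) atTop (𝓝 0)) (hA : FPTApprox α)
    {ε δ : ℝ} (hε : 0 < ε) (hδ : 0 < δ) : GapAlgorithm ε δ := by
  obtain ⟨P, f, c, hP⟩ := hA
  -- parameters
  set ε' := min ε 1 with hε'
  have hε'0 : 0 < ε' := lt_min hε one_pos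
  have hε'1 : ε' ≤ 1 := min_le_right _ _
  have hc2 : (0 : ℝ) < (c : ℝ) + 2 := by positivity
  obtain ⟨Δ, hΔ⟩ : ∃ Δ : ℕ, 6 * ((c : ℝ) + 2) / δ < Δ := exists_nat_gt _
  have hΔ0' : (0 : ℝ) < Δ := lt_trans (by positivity) hΔ
  have hΔ0 : 0 < Δ := by exact_mod_cast hΔ0'
  obtain ⟨J0, hJ0⟩ := pow_unbounded_of_one_lt (4 * ((c : ℝ) + 2) / δ + 1)
    (one_lt_two : (1 : ℝ) < 2)
  set J := J0 + 1 with hJ
  have hJ1 : 1 ≤ J := by omega
  set M : ℝ := (2 : ℝ) ^ (J + 1) with hM
  have hM4 : 4 ≤ M := by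
    calc (4 : ℝ) = 2 ^ 2 := by norm_num
      _ ≤ 2 ^ (J + 1) := pow_le_pow_right₀ (by norm_num) (by omega)
  have hMbig : 4 * ((c : ℝ) + 2) / δ ≤ M - 1 := by
    have : (2 : ℝ) ^ J0 ≤ M := pow_le_pow_right₀ (by norm_num) (by omega)
    linarith
  set γ : ℝ := 3 / (Δ : ℝ) + 2 / (M - 1) with hγ
  have hγ0 : 0 ≤ γ := by
    have : 0 < M - 1 := by linarith
    positivity
  have hγδ : γ * ((c : ℝ) + 2) ≤ δ := by
    have h1 : 3 / (Δ : ℝ) * ((c : ℝ) + 2) ≤ δ / 2 := by
      rw [div_mul_eq_mul_div, div_le_div_iff₀ hΔ0' (by norm_num)]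
      rw [div_lt_iff₀ hδ] at hΔ
      linarith
    have h2 : 2 / (M - 1) * ((c : ℝ) + 2) ≤ δ / 2 := by
      have hM1 : 0 < M - 1 := by linarith
      rw [div_mul_eq_mul_div, div_le_div_iff₀ hM1 (by norm_num)]
      rw [div_le_iff₀ hδ] at hMbig
      linarith
    rw [hγ]; linarith
  set ε₁ := ε' / (3 * Δ) with hε₁
  have hε₁0 : 0 < ε₁ := by positivity
  have hε₁1 : ε₁ ≤ 1 := by
    rw [hε₁, div_le_one (by positivity)]
    have : (1 : ℝ) ≤ Δ := by exact_mod_cast hΔ0
    linarith
  set K₀ := Kc M ε₁ with hK₀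
  have hK₀0 : 0 ≤ K₀ := by
    rw [hK₀]; unfold Kc
    have hM1 : 0 < M - 1 := by linarith
    have hp : 0 < (1 / (M - 1)) ^ 3 * ε₁ := by positivity
    have hp1 : (1 / (M - 1)) ^ 3 * ε₁ / 4 ≤ 1 := by
      have h1 : 1 / (M - 1) ≤ 1 := by rw [div_le_one hM1]; linarith
      have h2 : (1 / (M - 1)) ^ 3 ≤ 1 := pow_le_one₀ (by positivity) h1
      have h3 : (1 / (M - 1)) ^ 3 * ε₁ ≤ 1 * 1 := mul_le_mul h2 hε₁1 hε₁0.le (by norm_num)
      linarith
    have h1 : Real.log ((1 / (M - 1)) ^ 3 * ε₁ / 4) ≤ 0 :=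
      Real.log_nonpos (by positivity) hp1
    have h2 : Real.log ((1 / (4 * (M - 1))) / 2) ≤ 0 := by
      apply Real.log_nonpos (by positivity)
      have : 1 / (4 * (M - 1)) ≤ 1 := by rw [div_le_one (by positivity)]; linarith
      linarith
    apply div_nonneg _ hp.le
    linarith
  -- choice of k
  obtain ⟨k, hk2, hαk⟩ : ∃ k : ℕ, 2 ≤ k ∧ α k / k < 1 / (4 * (K₀ + 1)) := by
    have h1 : ∀ᶠ k : ℕ in atTop, α k / k < 1 / (4 * (K₀ + 1)) :=
      hα.eventually_lt_const (by positivity)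
    obtain ⟨k, hk⟩ := (h1.and (eventually_ge_atTop 2)).exists
    exact ⟨k, hk.2, hk.1⟩
  have hkR : (2 : ℝ) ≤ k := by exact_mod_cast hk2
  have hkK : α k * (K₀ * k) < k * k - k := by
    have h1 : α k < 1 / (4 * (K₀ + 1)) * k := by
      rwa [div_lt_iff₀ (by linarith)] at hαk
    rcases le_or_gt (α k) 0 with h0 | h0
    · have h2 : α k * (K₀ * k) ≤ 0 := mul_nonpos_of_nonpos_of_nonneg h0 (by positivity)
      nlinarith
    · have h2 : α k * (4 * (K₀ + 1)) < k := by
        rw [one_div, inv_mul_eq_div, lt_div_iff₀ (by positivity)] at h1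
        exact h1
      have h3 : α k * (K₀ * k) ≤ α k * (4 * (K₀ + 1)) * k / 4 := by nlinarith
      nlinarith
  set B : ℝ := k * (3 * k + 1) with hB
  have hB1 : 1 ≤ B := by rw [hB]; nlinarith
  set Th := ⌊K₀ * k⌋₊ with hTh
  set p3 := (1 / (M - 1)) ^ 3 * ε₁ / 4 with hp3
  have hM1 : 0 < M - 1 := by linarith
  have hp30 : 0 < p3 := by rw [hp3]; positivity
  set Y : ℝ := (k + 1) * 2 ^ (k * k) * (k + 1) * B ^ k with hY
  have hY0 : 0 < Y := by rw [hY]; positivity
  obtain ⟨n₀, hn₀⟩ : ∃ n₀ : ℕ, max (2 * Real.log (k + 1) / p3) (3 * Y) < n₀ := exists_nat_gt _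
  obtain ⟨cw, hcw⟩ := fits_of (k := k) (J := J) (Δ := Δ) (n₀ := n₀) (Th := Th) (fk := f k)
    (c := c)
  set C₂ : ℕ := (k * (3 * k + 1) + 2) * 2 ^ n₀ with hC₂
  refine ⟨prog P k J Δ n₀ Th, cw,
    (400 + 4 * J + f k + 7 * k * k + 8 * k) * C₂ ^ (c + 2), 2, ?_⟩
  intro n m φ hm w hw
  have hn : 0 < n := (φ ⟨0, hm⟩ 0).1.pos
  obtain ⟨hfit, hfw⟩ := hcw n m w (hvN Δ n₀ n m (Vf φ)) hn hm hw
  set g := gN k (2 ^ (J + 1)) (hvN Δ n₀ n m (Vf φ)) n with hg
  set N := g * k with hN
  set Pp := ∏ x, pr M (HeavyF φ Δ n₀ x) with hPp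
  obtain ⟨hg1, hg2⟩ := gN_bounds φ Δ n₀ J k hJ1 (by omega)
  rw [← hg, ← hM, ← hPp] at hg1 hg2
  have hPp0 : 0 < Pp := Finset.prod_pos (fun x _ => pr_pos (by linarith) _)
  have hNP : (N : ℝ) * Pp ≤ B := by
    rw [hN, hB]
    push_cast
    have : (g : ℝ) * k * Pp = k * (g * Pp) := by ring
    rw [this]
    exact mul_le_mul_of_nonneg_left hg2 (by positivity)
  have hnR : (0 : ℝ) ≤ n := Nat.cast_nonneg _
  -- size of the graph
  have hNbound : ((N : ℝ) + 2) ≤ C₂ * (2 : ℝ) ^ (γ * n) := by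
    have h1 := prod_pr_ge φ Δ n₀ J hm hΔ0 hJ1
    rw [← hM, ← hγ, ← hPp] at h1
    set q : ℝ := 2 ^ n₀ * (2 : ℝ) ^ (γ * n) with hq
    have hq1 : 1 ≤ q := by
      have h2 : (1 : ℝ) ≤ 2 ^ n₀ := one_le_pow₀ (by norm_num)
      have h3 : (1 : ℝ) ≤ (2 : ℝ) ^ (γ * n) := Real.one_le_rpow (by norm_num) (by positivity)
      calc (1 : ℝ) = 1 * 1 := by norm_num
        _ ≤ q := mul_le_mul h2 h3 (by norm_num) (by positivity)
    have h2 : (N : ℝ) ≤ B * q := by
      calc (N : ℝ) = N * 1 := (mul_one _).symm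
        _ ≤ N * (q * Pp) := mul_le_mul_of_nonneg_left h1 (Nat.cast_nonneg _)
        _ = (N * Pp) * q := by ring
        _ ≤ B * q := mul_le_mul_of_nonneg_right hNP (by linarith)
    have h3 : (C₂ : ℝ) * (2 : ℝ) ^ (γ * n) = (B + 2) * q := by
      rw [hC₂, hB, hq]; push_cast; ring
    rw [h3]; nlinarith
  -- running time
  intro T
  have hgN : g ≤ N := Nat.le_mul_of_pos_right _ (by omega)
  have htime := time_nat (n := n) (m := m) (N := N) (J := J) (k := k) (g := g) (fk := f k)
    (c := c) hn hm hgN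
  have hT : (((400 + 4 * J + f k + 7 * k * k + 8 * k) *
      ((n + m) ^ 2 * (N + 2) ^ (c + 2)) : ℕ) : ℝ) ≤ T := by
    have h1 : ((N : ℝ) + 2) ^ (c + 2) ≤ (C₂ : ℝ) ^ (c + 2) * (2 : ℝ) ^ (δ * n) := by
      calc ((N : ℝ) + 2) ^ (c + 2) ≤ (C₂ * (2 : ℝ) ^ (γ * n)) ^ (c + 2) :=
            pow_le_pow_left₀ (by positivity) hNbound _
        _ = (C₂ : ℝ) ^ (c + 2) * ((2 : ℝ) ^ (γ * n)) ^ (c + 2) := mul_pow _ _ _
        _ ≤ (C₂ : ℝ) ^ (c + 2) * (2 : ℝ) ^ (δ * n) := by
            apply mul_le_mul_of_nonneg_left _ (by positivity)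
            rw [← Real.rpow_natCast, ← Real.rpow_mul (by norm_num)]
            apply Real.rpow_le_rpow_of_exponent_le (by norm_num)
            push_cast
            nlinarith
    show _ ≤ (((400 + 4 * J + f k + 7 * k * k + 8 * k) * C₂ ^ (c + 2) : ℕ) : ℝ) *
      ((n : ℝ) + m) ^ 2 * (2 : ℝ) ^ (δ * n)
    push_cast
    have h2 : (0 : ℝ) ≤ (400 + 4 * J + f k + 7 * k * k + 8 * k) * ((n : ℝ) + m) ^ 2 := by
      positivity
    have h3 := mul_le_mul_of_nonneg_left h1 h2
    nlinarith
  have hbits : N * n * (J + 1) ≤ ⌊T⌋₊ := by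
    apply Nat.le_floor
    refine le_trans ?_ hT
    have : N * n * (J + 1) ≤ (400 + 4 * J + f k + 7 * k * k + 8 * k) *
      ((n + m) ^ 2 * (N + 2) ^ (c + 2)) := by omega
    exact_mod_cast this
  have hmodel := modelF φ Δ n₀ J hJ1
  have hrun := fun ρ : Fin ⌊T⌋₊ → Bool => run_tape hP φ ρ (by omega : 1 ≤ k) hJ1 hfit hfw
  simp only at hrun
  set val := valF (HeavyF φ Δ n₀) J with hval
  have hhalts : ∀ ρ : Fin ⌊T⌋₊ → Bool, ∀ t : ℕ, ∀ out : ℕ,
      t ≤ tMain n m N J k g + (f k * (N + 2) ^ c + 1) + (k * (k * 7 + 8) + 10) →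
      Halted (prog P k J Δ n₀ Th) (run w (prog P k J Δ n₀ Th) (satInput φ ρ) t) →
      (run w (prog P k J Δ n₀ Th) (satInput φ ρ) t).st.reg 0 = out →
      HaltsWithin w (prog P k J Δ n₀ Th) (satInput φ ρ) T out := by
    intro ρ t out ht h1 h2
    refine ⟨t, ?_, h1, h2⟩
    refine le_trans ?_ hT
    have : t ≤ (400 + 4 * J + f k + 7 * k * k + 8 * k) *
      ((n + m) ^ 2 * (N + 2) ^ (c + 2)) := by omega
    exact_mod_cast this
  constructor
  · -- Yes case
    rintro ⟨σ, hσ⟩
    apply prob_ge (Bad := fun ρ => ¬ ∃ s : Fin k → Fin N, Function.Injective s ∧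
      ∀ i, Agree val (fun x => (σ x).toNat) (famOf N n J ρ (s i)))
    · intro ρ hρ
      rw [not_not] at hρ
      obtain ⟨s₀, hs₀, hag⟩ := hρ
      obtain ⟨s, hs, hopt, t, ht, hhalt, hreg⟩ := hrun ρ
      apply hhalts ρ t 1 ht hhalt
      rw [hreg, if_pos]
      have hT0 := hopt (univ.image s₀) (by
        rw [Finset.card_image_of_injective _ hs₀, card_univ, Fintype.card_fin])
      have he : e2 val (ValidF φ) (famOf N n J ρ) (univ.image s₀) = k * k - k := by
        have : ((univ.image s₀) ×ˢ (univ.image s₀)).filter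
            (fun q => adjF val (ValidF φ) (famOf N n J ρ) q.1 q.2) = (univ.image s₀).offDiag := by
          ext q
          rw [mem_filter, mem_product, mem_offDiag]
          constructor
          · rintro ⟨⟨h1, h2⟩, h3⟩; exact ⟨h1, h2, h3.1⟩
          · rintro ⟨h1, h2, h3⟩
            refine ⟨⟨h1, h2⟩, ?_⟩
            rw [mem_image] at h1 h2
            obtain ⟨i, _, hi⟩ := h1
            obtain ⟨j, _, hj⟩ := h2
            rw [← hi, ← hj] at h3 ⊢
            exact adj_of_agree hσ h3 (hag i) (hag j)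
        unfold e2
        rw [this, offDiag_card, Finset.card_image_of_injective _ hs₀, card_univ,
          Fintype.card_fin]
      rw [he] at hT0
      by_contra hcon
      push Not at hcon
      have h1 : (e2 val (ValidF φ) (famOf N n J ρ) (univ.image s) : ℝ) ≤ K₀ * k := by
        refine le_trans ?_ (Nat.floor_le (by positivity : 0 ≤ K₀ * k))
        exact_mod_cast hcon
      have h2 : ((k * k - k : ℕ) : ℝ) = k * k - k := by
        rw [Nat.cast_sub (Nat.le_mul_self k)]; push_cast; ring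
      rw [h2] at hT0
      have hkk : (0 : ℝ) < k * k - k := by nlinarith
      have he0 : (0 : ℝ) ≤ e2 val (ValidF φ) (famOf N n J ρ) (univ.image s) :=
        Nat.cast_nonneg _
      rcases le_or_gt (α k) 0 with h0 | h0
      · have := mul_nonpos_of_nonpos_of_nonneg h0 he0
        linarith
      · have := mul_le_mul_of_nonneg_left h1 h0.le
        linarith
    · rw [transfer N n J hbits (fun F => ¬ ∃ s : Fin k → Fin N, Function.Injective s ∧
        ∀ i, Agree val (fun x => (σ x).toNat) (F (s i)))]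
      rw [div_le_iff₀ (by exact_mod_cast Fintype.card_pos)]
      have key := yes_count hmodel (fun x => (σ x).toNat) (fun x => Bool.toNat_le _) k g hg1
      refine (le_of_eq ?_).trans key
      congr!
  · -- No case
    intro hfar
    have hfar' : Far ε' φ := hfar.mono (min_le_left _ _)
    rcases Nat.lt_or_ge n n₀ with hnn | hnn
    · apply prob_ge (Bad := fun _ => False)
      · intro ρ _
        obtain ⟨s, hs, hopt, t, ht, hhalt, hreg⟩ := hrun ρ
        apply hhalts ρ t 0 ht hhalt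
        rw [hreg, if_neg]
        have : e2 val (ValidF φ) (famOf N n J ρ) (univ.image s) = 0 := by
          unfold e2
          rw [Finset.card_eq_zero, Finset.filter_eq_empty_iff]
          rintro q _ ⟨_, hv, _⟩
          refine not_valid_of_total hε'0 hm hfar' _ ?_ hv
          intro x
          exact valF_le1 _ _ _ _ (Or.inr hnn)
        rw [this]; omega
      · simp
    · apply prob_ge (Bad := fun ρ => ∃ S : Finset (Fin N), S.card ≤ k ∧
        K₀ * k < e2 val (ValidF φ) (famOf N n J ρ) S)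
      · intro ρ hρ
        obtain ⟨s, hs, hopt, t, ht, hhalt, hreg⟩ := hrun ρ
        apply hhalts ρ t 0 ht hhalt
        rw [hreg, if_neg]
        push Not at hρ ⊢
        apply Nat.le_floor
        apply hρ
        rw [Finset.card_image_of_injective _ hs, card_univ, Fintype.card_fin]
      · rw [transfer N n J hbits (fun F => ∃ S : Finset (Fin N), S.card ≤ k ∧
          K₀ * k < e2 val (ValidF φ) F S)]
        rw [div_le_iff₀ (by exact_mod_cast Fintype.card_pos)]
        have hnn' : max (2 * Real.log (k + 1) / p3) (3 * Y) < n :=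
          lt_of_lt_of_le hn₀ (by exact_mod_cast hnn)
        have hgap : Gap (dataF φ Δ n₀ J) (ValidF φ) (ε₁ * Fintype.card (Fin n)) := by
          have := gapF φ Δ n₀ J ε' hm hΔ0 (fun A hA C hC => far_fal hfar' A hA C hC)
          have e : ε₁ * (Fintype.card (Fin n) : ℝ) = ε' * n / (3 * Δ) := by
            rw [Fintype.card_fin, hε₁]; ring
          rw [e]; exact this
        have hM3 : (3 : ℝ) ≤ (dataF φ Δ n₀ J).M := by
          show (3 : ℝ) ≤ M
          linarith
        have hl1 : 2 * Real.log (k + 1) ≤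
            (1 / ((dataF φ Δ n₀ J).M - 1)) ^ 3 * ε₁ / 4 * (Fintype.card (Fin n) : ℝ) := by
          show 2 * Real.log (k + 1) ≤ p3 * (Fintype.card (Fin n) : ℝ)
          rw [Fintype.card_fin]
          have h1 : 2 * Real.log (k + 1) / p3 < n := lt_of_le_of_lt (le_max_left _ _) hnn'
          rw [div_lt_iff₀ hp30] at h1
          linarith
        have hl2 : ((k : ℝ) + 1) * 2 ^ (k * k) * (k + 1) * B ^ k *
            Real.exp (-(Fintype.card (Fin n) : ℝ)) ≤ 1 / 3 := by
          rw [Fintype.card_fin]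
          have h1 : 3 * Y < n := lt_of_le_of_lt (le_max_right _ _) hnn'
          have h2 : (n : ℝ) ≤ Real.exp n := by
            have := Real.add_one_le_exp (n : ℝ); linarith
          show Y * Real.exp (-(n : ℝ)) ≤ 1 / 3
          rw [Real.exp_neg, ← div_eq_mul_inv, div_le_div_iff₀ (Real.exp_pos _) (by norm_num)]
          linarith
        have hn' : 0 < Fintype.card (Fin n) := by rw [Fintype.card_fin]; exact hn
        have key := no_count (D := dataF φ Δ n₀ J) hmodel hM3 hε₁0 hε₁1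
          (fun x ω => valF_le2 _ _ _ _) (fun x ω hx => valF_le1 _ _ _ _ hx) hgap k N B hB1 hNP
          hn' hl1 hl2
        refine (le_of_eq ?_).trans key
        congr!

/-- **Main theorem.** Under (randomized) Gap-ETH, for every `α` with `α(k)/k → 0` there is no
`α`-FPT-approximation algorithm for Densest `k`-Subgraph. -/
theorem result : RandomizedGapETH → ∀ α : ℕ → ℝ,
    Tendsto (fun k : ℕ => α k / k) atTop (𝓝 0) → ¬ FPTApprox α := by
  rintro ⟨ε, hε, δ, hδ, hno⟩ α hα hA
  exact hno (gapAlgorithm_of_FPTApprox hα hA hε hδ)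

end Pool.Agent.Results.MP_2cea29_lc.NoSublinearFPT
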